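import Pool.Agent.Lib_MP_1eadae_ls.SJ

/-!
# Piece PJ: tuples, abstract version
-/

set_option autoImplicit false

namespace Pool.Agent.LogAll

open Polynomial Pool.Agent.LogRel

/-- summation over the first coordinate and over the others -/
theorem pj_sum_piFinset_succ {α : Type} {r : ℕ} (s : Fin (r + 1) → Finset α)
    (F : (Fin (r + 1) → α) → ℝ) :
    ∑ a ∈ Fintype.piFinset s, F a =
      ∑ a0 ∈ s 0, ∑ v ∈ Fintype.piFinset (fun i : Fin r => s i.succ),
        F (Fin.cons (α := fun _ => α) a0 v) := by
  rw [← Finset.sum_product' (f := fun a0 v => F (Fin.cons (α := fun _ => α) a0 v))]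
  refine Finset.sum_nbij' (fun a => (a 0, fun i : Fin r => a i.succ))
    (fun p => Fin.cons (α := fun _ => α) p.1 p.2) ?_ ?_ ?_ ?_ ?_
  · intro a ha
    rw [Fintype.mem_piFinset] at ha
    rw [Finset.mem_product]
    exact ⟨ha 0, Fintype.mem_piFinset.2 fun i => ha i.succ⟩
  · intro p hp
    rw [Finset.mem_product] at hp
    rw [Fintype.mem_piFinset]
    intro i
    refine Fin.cases ?_ (fun j => ?_) i
    · exact hp.1
    · exact (Fintype.mem_piFinset.1 hp.2) j
  · intro a _
    funext i
    refine Fin.cases ?_ (fun j => ?_) i <;> rfl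
  · intro p _
    rfl
  · intro a _
    congr 1
    funext i
    refine Fin.cases ?_ (fun j => ?_) i <;> rfl

open Classical in
/-- As `jointC` in Lib_MP_1eadae_ls/SJ.lean (induction on r, first coordinate; `sj_indep`), for
arbitrary finite sets A i and functions val i on them. The hypothesis is used for w' with
d (D+1)^j elements, j < r. -/
theorem jointA {α : Type} (D r : ℕ) : ∀ (d : ℕ) (β : ℝ) (_ : 0 ≤ β) (A : Fin r → Finset α)
    (val : Fin r → α → ℂ)
    (_ : ∀ i, ∀ j < r, ∀ d' : ℕ, d' = d * (D + 1) ^ j → ∀ w' : Fin d' → ℂ,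
      ((((A i).filter (fun a =>
        BadK (Submodule.span Qb (Set.range w')) D (val i a))).card : ℕ) : ℝ) ≤ β * (A i).card)
    (w : Fin d → ℂ) (_ : LinearIndependent Qb w),
      ((((Fintype.piFinset A).filter (fun a : Fin r → α =>
        ¬ LinearIndependent Qb (fun be : Fin d × (Fin r → Fin (D + 1)) =>
          w be.1 * ∏ i, val i (a i) ^ (be.2 i : ℕ)))).card : ℕ) : ℝ) ≤
        r * β * ∏ i, ((A i).card : ℝ) := by
  induction r with
  | zero =>
    intro d β _ A val _ w hw
    have hgood : ∀ a : Fin 0 → α, LinearIndependent Qb (fun be : Fin d × (Fin 0 → Fin (D + 1)) =>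
        w be.1 * ∏ i, val i (a i) ^ (be.2 i : ℕ)) := by
      intro a
      have h1 : (fun be : Fin d × (Fin 0 → Fin (D + 1)) =>
          w be.1 * ∏ i, val i (a i) ^ (be.2 i : ℕ)) = w ∘ Prod.fst := by
        funext be
        simp
      rw [h1]
      refine hw.comp Prod.fst ?_
      rintro ⟨a, e⟩ ⟨b, f⟩ hab
      exact Prod.ext hab (Subsingleton.elim _ _)
    rw [sj_card, Finset.sum_eq_zero]
    · simp
    · intro a _
      exact if_neg fun h => h (hgood a)
  | succ r ih =>
    intro d β hβ A val hU w hw
    set PL : ℝ := ∏ i : Fin r, ((A i.succ).card : ℝ) with hPL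
    have hPL0 : 0 ≤ PL := Finset.prod_nonneg fun i _ => Nat.cast_nonneg _
    rw [sj_card, pj_sum_piFinset_succ, Fin.prod_univ_succ, ← hPL]
    have hI : ∀ p : Prop, ∀ _ : Decidable p, (0 : ℝ) ≤ (if p then (1 : ℝ) else 0) := by
      intro p _
      split_ifs <;> norm_num
    have hI1 : ∀ p : Prop, ∀ _ : Decidable p, (if p then (1 : ℝ) else 0) ≤ 1 := by
      intro p _
      split_ifs <;> norm_num
    have hin : ∀ a0 ∈ A 0,
        ∑ v ∈ Fintype.piFinset (fun i : Fin r => A i.succ),
          (if ¬ LinearIndependent Qb (fun be : Fin d × (Fin (r + 1) → Fin (D + 1)) =>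
            w be.1 * ∏ i, val i ((Fin.cons (α := fun _ => α) a0 v : Fin (r + 1) → α) i) ^
              (be.2 i : ℕ)) then (1 : ℝ) else 0) ≤
          (if BadK (Submodule.span Qb (Set.range w)) D (val 0 a0) then (1 : ℝ) else 0) * PL +
            r * β * PL := by
      intro a0 _
      have h4 : 0 ≤ r * β * PL := mul_nonneg (mul_nonneg (Nat.cast_nonneg _) hβ) hPL0
      by_cases ha0 : BadK (Submodule.span Qb (Set.range w)) D (val 0 a0)
      · rw [if_pos ha0, one_mul]
        refine le_trans (Finset.sum_le_sum fun v _ => hI1 _ _) ?_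
        rw [Finset.sum_const, nsmul_eq_mul, mul_one, Fintype.card_piFinset]
        push_cast
        rw [← hPL]
        linarith
      · rw [if_neg ha0, zero_mul, zero_add]
        have hli := sj_indep w hw D (val 0 a0) ha0
        have hli2 := hli.comp (finProdFinEquiv (m := d) (n := D + 1)).symm
          (finProdFinEquiv (m := d) (n := D + 1)).symm.injective
        have h1 := ih (d * (D + 1)) β hβ (fun i => A i.succ) (fun i => val i.succ)
          (fun i j hj d' hd' w' => hU i.succ (j + 1) (Nat.succ_lt_succ hj) d'
            (by rw [hd', pow_succ]; ring) w') _ hli2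
        rw [sj_card] at h1
        refine le_trans (Finset.sum_le_sum fun v _ => ?_) h1
        by_cases hv : LinearIndependent Qb
            (fun be : Fin (d * (D + 1)) × (Fin r → Fin (D + 1)) =>
                  ((fun be : Fin d × Fin (D + 1) => w be.1 * val 0 a0 ^ (be.2 : ℕ)) ∘
                    (finProdFinEquiv (m := d) (n := D + 1)).symm) be.1 *
                      ∏ i, val i.succ (v i) ^ (be.2 i : ℕ))
        · rw [if_neg]
          · exact hI _ _
          · intro hcon
            refine hcon ?_
            let e : Fin d × (Fin (r + 1) → Fin (D + 1)) →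
                Fin (d * (D + 1)) × (Fin r → Fin (D + 1)) :=
              fun be => (finProdFinEquiv (be.1, be.2 0), fun i => be.2 i.succ)
            have he : Function.Injective e := by
              rintro ⟨b, f⟩ ⟨b', f'⟩ h
              simp only [e, Prod.mk.injEq, EmbeddingLike.apply_eq_iff_eq] at h
              obtain ⟨⟨h1, h2⟩, h3⟩ := h
              refine Prod.ext h1 ?_
              funext i
              refine Fin.cases ?_ (fun j => ?_) i
              · exact h2
              · exact congrFun h3 j
            have h3 := hv.comp e he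
            have h4 : (fun be : Fin d × (Fin (r + 1) → Fin (D + 1)) =>
                w be.1 * ∏ i, val i ((Fin.cons (α := fun _ => α) a0 v : Fin (r + 1) → α) i) ^
                    (be.2 i : ℕ)) =
                (fun be : Fin (d * (D + 1)) × (Fin r → Fin (D + 1)) =>
                ((fun be : Fin d × Fin (D + 1) => w be.1 * val 0 a0 ^ (be.2 : ℕ)) ∘
                  (finProdFinEquiv (m := d) (n := D + 1)).symm) be.1 *
                    ∏ i, val i.succ (v i) ^ (be.2 i : ℕ)) ∘ e := by
              funext be
              simp only [Function.comp_apply, e, Fin.prod_univ_succ, Fin.cons_zero,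
                Fin.cons_succ, Equiv.symm_apply_apply]
              ring
            rw [h4]
            exact h3
        · rw [if_pos hv]
          exact hI1 _ _
    refine le_trans (Finset.sum_le_sum hin) ?_
    rw [Finset.sum_add_distrib, ← Finset.sum_mul, Finset.sum_const, nsmul_eq_mul]
    have h1 := hU 0 0 (Nat.succ_pos r) d (by simp) w
    rw [sj_card] at h1
    have h3 := mul_le_mul_of_nonneg_right h1 hPL0
    push_cast
    calc _ ≤ β * ((A 0).card : ℝ) * PL + ((A 0).card : ℝ) * (r * β * PL) := by linarith
      _ = (r + 1) * β * (((A 0).card : ℝ) * PL) := by ring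

end Pool.Agent.LogAll
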