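import Pool.Agent.Lib_MP_1eadae_lp.PA
import Pool.Agent.Lib_MP_1eadae_lp.PJ

/-!
# Grids: the final theorem
-/

set_option autoImplicit false

namespace Pool.Agent.LogAll

open Polynomial Pool.Agent.LogRel

open Classical in
/-- From `grid_one` for the d (D+1)^j, j < r (n₀ := maximum, or sum, of the n₀'s; δ = (1/2)^n₀;
N ^ (-(1/2)^m) ≤ N ^ (-(1/2)^n₀) for m ≤ n₀, N ≥ 1) and `jointA` with A i = Fintype.piFinset (X i),
val i x = u i + ∑ j, x j * lam i j. -/
theorem grids (d D r : ℕ) : ∃ n₀ : ℕ, ∃ δ : ℝ, 0 < δ ∧ ∀ n : ℕ, n₀ ≤ n →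
    ∀ lam : Fin r → Fin n → ℂ, (∀ i, LinearIndependent ℚ (lam i)) →
    (∀ i j, IsAlgebraic ℚ (Complex.exp (lam i j))) →
    ∀ w : Fin d → ℂ, LinearIndependent Qb w → ∀ (u : Fin r → ℂ)
    (X : Fin r → Fin n → Finset ℚ) (N : ℕ), 1 ≤ N → (∀ i j, N ≤ (X i j).card) →
    ((((Fintype.piFinset fun i => Fintype.piFinset (X i)).filter (fun x : Fin r → Fin n → ℚ =>
      ¬ LinearIndependent Qb (fun be : Fin d × (Fin r → Fin (D + 1)) =>
        w be.1 * ∏ i, (u i + ∑ j, (x i j : ℂ) * lam i j) ^ (be.2 i : ℕ)))).card : ℕ) : ℝ) ≤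
      2 * r * (N : ℝ) ^ (-δ) * ∏ i, ∏ j, ((X i j).card : ℝ) := by
  choose f hf using fun j : ℕ => grid_one (d * (D + 1) ^ j) D
  refine ⟨∑ j ∈ Finset.range r, f j, (1 / 2 : ℝ) ^ (∑ j ∈ Finset.range r, f j), by positivity, ?_⟩
  intro n hn lam hlam halg w hw u X N hN hX
  set n₀ : ℕ := ∑ j ∈ Finset.range r, f j with hn₀
  have hfj : ∀ j < r, f j ≤ n₀ := fun j hj =>
    Finset.single_le_sum (f := f) (fun _ _ => Nat.zero_le _) (Finset.mem_range.2 hj)
  have hN1 : (1 : ℝ) ≤ (N : ℝ) := by exact_mod_cast hN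
  have hcard : ∀ i, ((Fintype.piFinset (X i)).card : ℝ) = ∏ j, ((X i j).card : ℝ) := by
    intro i
    rw [Fintype.card_piFinset]
    push_cast
    rfl
  have key := jointA (α := Fin n → ℚ) D r d (2 * (N : ℝ) ^ (-((1 / 2 : ℝ) ^ n₀)))
    (by positivity) (fun i => Fintype.piFinset (X i))
    (fun i x => u i + ∑ j, (x j : ℂ) * lam i j) ?_ w hw
  · refine le_trans key (le_of_eq ?_)
    simp only [hcard]
    ring
  · intro i j hj d' hd' w'
    subst hd'
    refine le_trans (hf j n (le_trans (hfj j hj) hn) (lam i) (hlam i) (halg i) w' (u i) (X i) N hN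
      (hX i)) ?_
    rw [hcard i]
    refine mul_le_mul_of_nonneg_right ?_ (Finset.prod_nonneg fun j _ => Nat.cast_nonneg _)
    refine mul_le_mul_of_nonneg_left ?_ (by norm_num)
    refine Real.rpow_le_rpow_of_exponent_le hN1 ?_
    refine neg_le_neg ?_
    exact pow_le_pow_of_le_one (by norm_num) (by norm_num) (hfj j hj)

end Pool.Agent.LogAll
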