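import Pool.Agent.Lib_MP_1eadae_lp.PB
import Pool.Agent.Lib_MP_1eadae_lp.PJ

/-!
# Grids: the final theorem, power saving in the number of points
-/

set_option autoImplicit false

namespace Pool.Agent.LogAll

open Polynomial Pool.Agent.LogRel

open Classical in
/-- As `grids` in Fin.lean, from `grid_pow` for the d (D+1)^j, j < r, and `jointA`. n₀ := sum of the
n₀'s; δ := a positive number ≤ all of the δ_j, j < r (e.g. a finite product of min 1 δ_j, or the
minimum). -/
theorem grids_pow (d D r : ℕ) : ∃ n₀ : ℕ, ∃ δ : ℝ, 0 < δ ∧ ∀ n : ℕ, n₀ ≤ n →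
    ∀ lam : Fin r → Fin n → ℂ, (∀ i, LinearIndependent ℚ (lam i)) →
    (∀ i j, IsAlgebraic ℚ (Complex.exp (lam i j))) →
    ∀ w : Fin d → ℂ, LinearIndependent Qb w → ∀ (u : Fin r → ℂ)
    (X : Fin r → Fin n → Finset ℚ) (N : ℕ), 1 ≤ N → (∀ i j, N ≤ (X i j).card) →
    ((((Fintype.piFinset fun i => Fintype.piFinset (X i)).filter (fun x : Fin r → Fin n → ℚ =>
      ¬ LinearIndependent Qb (fun be : Fin d × (Fin r → Fin (D + 1)) =>
        w be.1 * ∏ i, (u i + ∑ j, (x i j : ℂ) * lam i j) ^ (be.2 i : ℕ)))).card : ℕ) : ℝ) ≤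
      2 * r * (N : ℝ) ^ (-(δ * n)) * ∏ i, ∏ j, ((X i j).card : ℝ) := by
  choose f δ hδ hf using fun j : ℕ => grid_pow (d * (D + 1) ^ j) D
  refine ⟨∑ j ∈ Finset.range r, f j, ∏ j ∈ Finset.range r, min 1 (δ j),
    Finset.prod_pos fun j _ => lt_min one_pos (hδ j), ?_⟩
  intro n hn lam hlam halg w hw u X N hN hX
  set n₀ : ℕ := ∑ j ∈ Finset.range r, f j with hn₀
  set δ₀ : ℝ := ∏ j ∈ Finset.range r, min 1 (δ j) with hδ₀
  have hfj : ∀ j < r, f j ≤ n₀ := fun j hj =>
    Finset.single_le_sum (f := f) (fun _ _ => Nat.zero_le _) (Finset.mem_range.2 hj)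
  have hδj : ∀ j < r, δ₀ ≤ δ j := by
    intro j hj
    have h1 : δ₀ ≤ min 1 (δ j) := by
      rw [hδ₀, ← Finset.mul_prod_erase _ _ (Finset.mem_range.2 hj)]
      refine mul_le_of_le_one_right (lt_min one_pos (hδ j)).le ?_
      refine Finset.prod_le_one (fun i _ => (lt_min one_pos (hδ i)).le) fun i _ => min_le_left _ _
    exact h1.trans (min_le_right _ _)
  have hN1 : (1 : ℝ) ≤ (N : ℝ) := by exact_mod_cast hN
  have hcard : ∀ i, ((Fintype.piFinset (X i)).card : ℝ) = ∏ j, ((X i j).card : ℝ) := by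
    intro i
    rw [Fintype.card_piFinset]
    push_cast
    rfl
  have key := jointA (α := Fin n → ℚ) D r d (2 * (N : ℝ) ^ (-(δ₀ * n)))
    (by positivity) (fun i => Fintype.piFinset (X i))
    (fun i x => u i + ∑ j, (x j : ℂ) * lam i j) ?_ w hw
  · refine le_trans key (le_of_eq ?_)
    simp only [hcard]
    ring
  · intro i j hj d' hd' w'
    subst hd'
    refine le_trans (hf j n (le_trans (hfj j hj) hn) (lam i) (hlam i) (halg i) w' (u i) (X i) N hN
      (hX i)) ?_
    rw [hcard i]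
    refine mul_le_mul_of_nonneg_right ?_ (Finset.prod_nonneg fun j _ => Nat.cast_nonneg _)
    refine mul_le_mul_of_nonneg_left ?_ (by norm_num)
    refine Real.rpow_le_rpow_of_exponent_le hN1 ?_
    refine neg_le_neg ?_
    exact mul_le_mul_of_nonneg_right (hδj j hj) (Nat.cast_nonneg _)

end Pool.Agent.LogAll
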