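import Pool.Agent.Lib_MP_1eadae_ls.SU
import Pool.Agent.Lib_MP_1eadae_lq.QA

/-!
# Piece PA: grids of rational numbers, one variable
-/

set_option autoImplicit false

namespace Pool.Agent.LogAll

open Polynomial Pool.Agent.LogRel

/-- From `uniS` with ε = 1 / 2 (extend lam : Fin n → ℂ by zero to ℕ → ℂ; subsets of range n and of
Fin n). -/
theorem nocubeL (d D : ℕ) : ∃ n : ℕ, ∀ lam : Fin n → ℂ, LinearIndependent ℚ lam →
    (∀ i, IsAlgebraic ℚ (Complex.exp (lam i))) → ∀ (w : Fin d → ℂ) (u : ℂ),
      ∃ S : Finset (Fin n), ¬ BadK (Submodule.span Qb (Set.range w)) D (u + ∑ i ∈ S, lam i) := by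
  obtain ⟨n, hn⟩ := uniS d D (ε := 1 / 2) (by norm_num)
  replace hn := hn n le_rfl
  refine ⟨n, fun lam hind halg w u => ?_⟩
  by_contra hbad
  push Not at hbad
  set L : ℕ → ℂ := fun k => if h : k < n then lam ⟨k, h⟩ else 0 with hL
  have hL' : ∀ i : Fin n, L i = lam i := by
    intro i
    simp only [hL, i.isLt, dif_pos]
  have h1 := hn L w u (by
    have : (fun i : Fin n => L i) = lam := funext hL'
    rw [this]
    exact hind) (by
    intro i hi
    have h2 := hL' ⟨i, hi⟩
    simp only at h2
    rw [h2]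
    exact halg _)
  have h2 : ((Finset.univ : Finset (Finset (Fin n))).card : ℝ) ≤ 1 / 2 * 2 ^ n := by
    refine le_trans ?_ h1
    rw [Nat.cast_le]
    refine Finset.card_le_card_of_injOn (fun S : Finset (Fin n) => S.map Fin.valEmbedding) ?_
      (fun S _ T _ h => Finset.map_injective _ h)
    intro S _
    have hS := hbad S
    simp only [Finset.coe_filter, Finset.mem_powerset, Set.mem_ofPred_eq]
    refine ⟨?_, ?_⟩
    · intro k hk
      rw [Finset.mem_map] at hk
      obtain ⟨i, _, rfl⟩ := hk
      exact Finset.mem_range.mpr i.isLt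
    · convert hS using 1
      rw [Finset.sum_map]
      simp only [Fin.valEmbedding_apply]
      rw [Finset.sum_congr rfl (fun i _ => hL' i)]
      ring
  rw [Finset.card_univ, Fintype.card_finset, Fintype.card_fin] at h2
  push_cast at h2
  have h3 : (0 : ℝ) < 2 ^ n := by positivity
  linarith

open Classical in
private theorem pa_count (n : ℕ) (V : Fin (n + 1) → Finset ℚ) (E : (Fin (n + 1) → ℚ) → Prop) :
    ((Fintype.piFinset V).filter E).card =
      ∑ a ∈ V 0, ((Fintype.piFinset (Fin.tail V)).filter (fun p => E (Fin.cons a p))).card := by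
  have h1 : ((Fintype.piFinset V).filter E).card =
      ((V 0 ×ˢ Fintype.piFinset (Fin.tail V)).filter
        (fun q => E (Fin.cons q.1 q.2 : Fin (n + 1) → ℚ))).card := by
    refine Finset.card_nbij' (fun p => (p 0, Fin.tail p)) (fun q => Fin.cons q.1 q.2) ?_ ?_ ?_ ?_
    · intro p hp
      have hp := Finset.mem_filter.1 (Finset.mem_coe.1 hp)
      have hp1 := Fintype.mem_piFinset.1 hp.1
      refine Finset.mem_coe.2 (Finset.mem_filter.2 ⟨Finset.mem_product.2 ⟨hp1 0, ?_⟩, ?_⟩)
      · exact Fintype.mem_piFinset.2 fun i => hp1 i.succ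
      · change E (Fin.cons (p 0) (Fin.tail p))
        rw [Fin.cons_self_tail]
        exact hp.2
    · intro q hq
      have hq := Finset.mem_filter.1 (Finset.mem_coe.1 hq)
      have hq1 := Finset.mem_product.1 hq.1
      refine Finset.mem_coe.2 (Finset.mem_filter.2 ⟨Fintype.mem_piFinset.2 ?_, hq.2⟩)
      intro i
      refine Fin.cases ?_ (fun j => ?_) i
      · exact hq1.1
      · exact Fintype.mem_piFinset.1 hq1.2 j
    · intro p _
      exact Fin.cons_self_tail p
    · intro q _
      rfl
  rw [h1, Finset.card_filter, Finset.sum_product]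
  refine Finset.sum_congr rfl fun a _ => ?_
  rw [Finset.card_filter]

open Classical in
/-- the grid bound from the absence of bad cubes -/
private theorem pa_base (d D n : ℕ) (hn : ∀ lam : Fin n → ℂ, LinearIndependent ℚ lam →
    (∀ i, IsAlgebraic ℚ (Complex.exp (lam i))) → ∀ (w : Fin d → ℂ) (u : ℂ),
      ∃ S : Finset (Fin n), ¬ BadK (Submodule.span Qb (Set.range w)) D (u + ∑ i ∈ S, lam i))
    (lam : Fin n → ℂ) (hind : LinearIndependent ℚ lam)
    (halg : ∀ i, IsAlgebraic ℚ (Complex.exp (lam i))) (w : Fin d → ℂ) (u : ℂ)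
    (X : Fin n → Finset ℚ) (N : ℕ) (hN : 1 ≤ N) (hX : ∀ i, N ≤ (X i).card) :
    ((((Fintype.piFinset X).filter (fun x =>
      BadK (Submodule.span Qb (Set.range w)) D (u + ∑ i, (x i : ℂ) * lam i))).card : ℕ) : ℝ) ≤
      2 * (N : ℝ) ^ (-((1 / 2 : ℝ) ^ n)) * ∏ i, ((X i).card : ℝ) := by
  obtain ⟨e, he⟩ := exists_injective_nat ℚ
  set g : ℕ → ℚ := Function.invFun e with hg
  have hge : ∀ x, g (e x) = x := Function.leftInverse_invFun he
  have hcard : ∀ i, ((X i).image e).card = (X i).card := fun i =>
    Finset.card_image_of_injective _ he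
  have h1 := boxE n (fun i => (X i).image e) N hN (fun i => by rw [hcard]; exact hX i)
    {v | BadK (Submodule.span Qb (Set.range w)) D (u + ∑ i, (g (v i) : ℂ) * lam i)} ?_
  · simp only [hcard] at h1
    refine le_trans ?_ h1
    rw [Nat.cast_le]
    refine Finset.card_le_card_of_injOn (fun x : Fin n → ℚ => fun i => e (x i)) ?_ ?_
    · intro x hx
      have hx := Finset.mem_filter.1 (Finset.mem_coe.1 hx)
      have hx1 := Fintype.mem_piFinset.1 hx.1
      refine Finset.mem_coe.2 (Finset.mem_filter.2 ⟨Fintype.mem_piFinset.2 fun i =>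
        Finset.mem_image_of_mem e (hx1 i), ?_⟩)
      change BadK (Submodule.span Qb (Set.range w)) D (u + ∑ i, (g (e (x i)) : ℂ) * lam i)
      simp only [hge]
      exact hx.2
    · intro x _ y _ h
      funext i
      exact he (congrFun h i)
  · intro a b hab
    have hne : ∀ i, g (b i) - g (a i) ≠ 0 := by
      intro i h
      obtain ⟨ha, hb, hab'⟩ := hab i
      obtain ⟨x, _, hx⟩ := Finset.mem_image.1 ha
      obtain ⟨y, _, hy⟩ := Finset.mem_image.1 hb
      apply hab'
      rw [← hx, ← hy, hge, hge] at h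
      rw [← hx, ← hy, sub_eq_zero.1 h]
    obtain ⟨S, hS⟩ := hn (fun i => ((g (b i) - g (a i) : ℚ) : ℂ) * lam i) (by
      have h2 := hind.units_smul (fun i => Units.mk0 (g (b i) - g (a i)) (hne i))
      convert h2 using 1
      funext i
      simp only [Pi.smul_apply', Units.smul_mk0]
      rw [Algebra.smul_def]
      simp) (by
      intro i
      set q : ℚ := g (b i) - g (a i) with hq
      have h2 : Complex.exp ((q : ℂ) * lam i) ^ q.den = Complex.exp (lam i) ^ q.num := by
        rw [← Complex.exp_nat_mul, ← Complex.exp_int_mul]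
        congr 1
        have h3 : (q : ℂ) = (q.num : ℂ) / (q.den : ℂ) := by
          exact_mod_cast (Rat.num_div_den q).symm
        have h4 : (q.den : ℂ) ≠ 0 := by exact_mod_cast q.den_nz
        rw [h3]
        field_simp
      refine IsAlgebraic.of_pow (n := q.den) q.pos ?_
      rw [h2]
      obtain ⟨k, hk | hk⟩ := Int.eq_nat_or_neg q.num
      · rw [hk, zpow_natCast]
        exact (halg i).pow k
      · rw [hk, zpow_neg, zpow_natCast]
        exact ((halg i).pow k).inv) w (u + ∑ i, (g (a i) : ℂ) * lam i)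
    refine ⟨S, fun h => hS ?_⟩
    change BadK (Submodule.span Qb (Set.range w)) D
      (u + ∑ i, (g (if i ∈ S then b i else a i) : ℂ) * lam i) at h
    convert h using 1
    have h3 : ∑ i : Fin n, (g (if i ∈ S then b i else a i) : ℂ) * lam i =
        ∑ i : Fin n, ((g (a i) : ℂ) * lam i +
          if i ∈ S then ((g (b i) - g (a i) : ℚ) : ℂ) * lam i else 0) := by
      refine Finset.sum_congr rfl fun i _ => ?_
      split_ifs
      · push_cast
        ring
      · ring
    rw [h3, Finset.sum_add_distrib, ← Finset.sum_filter]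
    simp only [Finset.filter_mem_eq_inter, Finset.univ_inter]
    ring

open Classical in
/-- Proof. n₀ from `nocubeL`. For n = n₀: `boxE` with V i = range of the card of X i (enumerate X i),
E = the bad points: for x_i ≠ y_i in X i the numbers (y_i - x_i) lam_i are linearly independent over ℚ,
their exponentials are algebraic (rational powers), and the points of the cube give
(u + ∑ x_i lam_i) + ∑ i ∈ S, (y_i - x_i) lam_i. For n > n₀ by induction: fix the last (or first)
coordinate and put its contribution into u. -/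
theorem grid_one (d D : ℕ) : ∃ n₀ : ℕ, ∀ n : ℕ, n₀ ≤ n → ∀ lam : Fin n → ℂ,
    LinearIndependent ℚ lam → (∀ i, IsAlgebraic ℚ (Complex.exp (lam i))) →
    ∀ (w : Fin d → ℂ) (u : ℂ) (X : Fin n → Finset ℚ) (N : ℕ), 1 ≤ N → (∀ i, N ≤ (X i).card) →
    ((((Fintype.piFinset X).filter (fun x =>
      BadK (Submodule.span Qb (Set.range w)) D (u + ∑ i, (x i : ℂ) * lam i))).card : ℕ) : ℝ) ≤
      2 * (N : ℝ) ^ (-((1 / 2 : ℝ) ^ n₀)) * ∏ i, ((X i).card : ℝ) := by
  obtain ⟨n₀, hn₀⟩ := nocubeL d D
  refine ⟨n₀, fun n hn => ?_⟩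
  induction n, hn using Nat.le_induction with
  | base =>
    intro lam hind halg w u X N hN hX
    exact pa_base d D n₀ hn₀ lam hind halg w u X N hN hX
  | succ n hn ih =>
    intro lam hind halg w u X N hN hX
    rw [pa_count, Fin.prod_univ_succ]
    push_cast
    have h1 : ∀ a ∈ X 0, ((((Fintype.piFinset (Fin.tail X)).filter (fun p =>
        BadK (Submodule.span Qb (Set.range w)) D (u + ∑ i,
          (((Fin.cons a p : Fin (n + 1) → ℚ) i : ℚ) : ℂ) * lam i))).card : ℕ) : ℝ) ≤
        2 * (N : ℝ) ^ (-((1 / 2 : ℝ) ^ n₀)) * ∏ i : Fin n, ((X i.succ).card : ℝ) := by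
      intro a _
      have h2 := ih (fun i => lam i.succ) (hind.comp _ (Fin.succ_injective n))
        (fun i => halg i.succ) w (u + (a : ℂ) * lam 0) (Fin.tail X) N hN (fun i => hX i.succ)
      refine le_trans (le_of_eq ?_) h2
      congr 2
      refine Finset.filter_congr fun p _ => ?_
      rw [Fin.sum_univ_succ]
      simp only [Fin.cons_zero, Fin.cons_succ]
      rw [add_assoc]
    refine le_trans (Finset.sum_le_sum h1) (le_of_eq ?_)
    rw [Finset.sum_const, nsmul_eq_mul]
    ring

end Pool.Agent.LogAll
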