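import Pool.Agent.Lib_MP_1eadae_lp.PA

/-!
# Piece PB: grids, power saving in the number of points
-/

set_option autoImplicit false

namespace Pool.Agent.LogAll

open Polynomial Pool.Agent.LogRel

private theorem pb_algexp {z : ℂ} (hz : IsAlgebraic ℚ (Complex.exp z)) (q : ℚ) :
    IsAlgebraic ℚ (Complex.exp ((q : ℂ) * z)) := by
  have h2 : Complex.exp ((q : ℂ) * z) ^ q.den = Complex.exp z ^ q.num := by
    rw [← Complex.exp_nat_mul, ← Complex.exp_int_mul]
    congr 1
    have h3 : (q : ℂ) = (q.num : ℂ) / (q.den : ℂ) := by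
      exact_mod_cast (Rat.num_div_den q).symm
    have h4 : (q.den : ℂ) ≠ 0 := by exact_mod_cast q.den_nz
    rw [h3]
    field_simp
  refine IsAlgebraic.of_pow (n := q.den) q.pos ?_
  rw [h2]
  obtain ⟨k, hk | hk⟩ := Int.eq_nat_or_neg q.num
  · rw [hk, zpow_natCast]
    exact hz.pow k
  · rw [hk, zpow_neg, zpow_natCast]
    exact (hz.pow k).inv

private theorem pb_algprod {m : ℕ} {f : Fin m → ℂ} (hf : ∀ j, IsAlgebraic ℚ (f j)) :
    IsAlgebraic ℚ (∏ j, f j) := by
  refine Finset.prod_induction _ (fun x : ℂ => IsAlgebraic ℚ x) (fun a b ha hb => ha.mul hb) ?_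
    (fun j _ => hf j)
  exact isAlgebraic_one

open Classical in
private theorem pb_count (n : ℕ) (V : Fin (n + 1) → Finset ℚ) (E : (Fin (n + 1) → ℚ) → Prop) :
    ((Fintype.piFinset V).filter E).card =
      ∑ a ∈ V 0, ((Fintype.piFinset (Fin.tail V)).filter (fun p => E (Fin.cons a p))).card := by
  have h1 : ((Fintype.piFinset V).filter E).card =
      ((V 0 ×ˢ Fintype.piFinset (Fin.tail V)).filter
        (fun q => E (Fin.cons q.1 q.2 : Fin (n + 1) → ℚ))).card := by
    refine Finset.card_nbij' (fun p => (p 0, Fin.tail p)) (fun q => Fin.cons q.1 q.2) ?_ ?_ ?_ ?_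
    · intro p hp
      have hp := Finset.mem_filter.1 (Finset.mem_coe.1 hp)
      have hp1 := Fintype.mem_piFinset.1 hp.1
      refine Finset.mem_coe.2 (Finset.mem_filter.2 ⟨Finset.mem_product.2 ⟨hp1 0, ?_⟩, ?_⟩)
      · exact Fintype.mem_piFinset.2 fun i => hp1 i.succ
      · change E (Fin.cons (p 0) (Fin.tail p))
        rw [Fin.cons_self_tail]
        exact hp.2
    · intro q hq
      have hq := Finset.mem_filter.1 (Finset.mem_coe.1 hq)
      have hq1 := Finset.mem_product.1 hq.1
      refine Finset.mem_coe.2 (Finset.mem_filter.2 ⟨Fintype.mem_piFinset.2 ?_, hq.2⟩)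
      intro i
      refine Fin.cases ?_ (fun j => ?_) i
      · exact hq1.1
      · exact Fintype.mem_piFinset.1 hq1.2 j
    · intro p _
      exact Fin.cons_self_tail p
    · intro q _
      rfl
  rw [h1, Finset.card_filter, Finset.sum_product]
  refine Finset.sum_congr rfl fun a _ => ?_
  rw [Finset.card_filter]

open Classical in
/-- `boxE` for finite sets of any type (enumerate the V i). -/
theorem boxT {α : Type} (n : ℕ) (V : Fin n → Finset α) (N : ℕ) (hN : 1 ≤ N)
    (hV : ∀ i, N ≤ (V i).card) (E : Set (Fin n → α))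
    (hE : ∀ u v : Fin n → α, (∀ i, u i ∈ V i ∧ v i ∈ V i ∧ u i ≠ v i) →
      ∃ S : Finset (Fin n), (fun i => if i ∈ S then v i else u i) ∉ E) :
    ((((Fintype.piFinset V).filter (fun p => p ∈ E)).card : ℕ) : ℝ) ≤
      2 * (N : ℝ) ^ (-((1 / 2 : ℝ) ^ n)) * ∏ i, ((V i).card : ℝ) := by
  obtain ⟨e, he⟩ := Set.countable_iff_exists_injOn.1
    ((Finset.univ.biUnion V).finite_toSet.countable)
  have hinj : ∀ i j a b, a ∈ V i → b ∈ V j → e a = e b → a = b := by
    intro i j a b ha hb hab
    refine he ?_ ?_ hab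
    · exact Finset.mem_coe.2 (Finset.mem_biUnion.2 ⟨i, Finset.mem_univ _, ha⟩)
    · exact Finset.mem_coe.2 (Finset.mem_biUnion.2 ⟨j, Finset.mem_univ _, hb⟩)
  have hcard : ∀ i, ((V i).image e).card = (V i).card := fun i =>
    Finset.card_image_of_injOn fun a ha b hb hab => hinj i i a b ha hb hab
  have h1 := boxE n (fun i => (V i).image e) N hN (fun i => by rw [hcard]; exact hV i)
    {v | ∃ p : Fin n → α, (∀ i, p i ∈ V i) ∧ p ∈ E ∧ ∀ i, e (p i) = v i} ?_
  · simp only [hcard] at h1
    refine le_trans ?_ h1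
    rw [Nat.cast_le]
    refine Finset.card_le_card_of_injOn (fun x : Fin n → α => fun i => e (x i)) ?_ ?_
    · intro x hx
      have hx := Finset.mem_filter.1 (Finset.mem_coe.1 hx)
      have hx1 := Fintype.mem_piFinset.1 hx.1
      refine Finset.mem_coe.2 (Finset.mem_filter.2 ⟨Fintype.mem_piFinset.2 fun i =>
        Finset.mem_image_of_mem e (hx1 i), ?_⟩)
      exact ⟨x, hx1, hx.2, fun i => rfl⟩
    · intro x hx y hy h
      have hx := Fintype.mem_piFinset.1 (Finset.mem_filter.1 (Finset.mem_coe.1 hx)).1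
      have hy := Fintype.mem_piFinset.1 (Finset.mem_filter.1 (Finset.mem_coe.1 hy)).1
      funext i
      exact hinj i i _ _ (hx i) (hy i) (congrFun h i)
  · intro a b hab
    have h2 : ∀ i, ∃ x y, x ∈ V i ∧ y ∈ V i ∧ e x = a i ∧ e y = b i := by
      intro i
      obtain ⟨ha, hb, _⟩ := hab i
      obtain ⟨x, hx, hx'⟩ := Finset.mem_image.1 ha
      obtain ⟨y, hy, hy'⟩ := Finset.mem_image.1 hb
      exact ⟨x, y, hx, hy, hx', hy'⟩
    choose x y hx hy hxa hyb using h2
    obtain ⟨S, hS⟩ := hE x y fun i => ⟨hx i, hy i, fun h => (hab i).2.2 (by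
      rw [← hxa, ← hyb, h])⟩
    refine ⟨S, ?_⟩
    rintro ⟨p, hpV, hpE, hp⟩
    apply hS
    convert hpE using 1
    funext i
    have h3 := hp i
    by_cases hi : i ∈ S
    · simp only [hi, if_true] at h3 ⊢
      exact (hinj i i _ _ (hpV i) (hy i) (h3.trans (hyb i).symm)).symm
    · simp only [hi, if_false] at h3 ⊢
      exact (hinj i i _ _ (hpV i) (hx i) (h3.trans (hxa i).symm)).symm

open Classical in
/-- Blocks: k groups of m coordinates. `boxT` with α = Fin m → ℚ, V i = Fintype.piFinset (X i), which has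
at least N ^ m elements; for x_i ≠ y_i in V i (functions Fin m → ℚ) the numbers
∑ j, (y_i j - x_i j) * lam i j, i : Fin k, are linearly independent over ℚ and have algebraic
exponentials. -/
theorem grid_block (d D k m : ℕ) (hk : ∀ lam : Fin k → ℂ, LinearIndependent ℚ lam →
    (∀ i, IsAlgebraic ℚ (Complex.exp (lam i))) → ∀ (w : Fin d → ℂ) (u : ℂ),
      ∃ S : Finset (Fin k), ¬ BadK (Submodule.span Qb (Set.range w)) D (u + ∑ i ∈ S, lam i))
    (lam : Fin k → Fin m → ℂ)
    (hind : LinearIndependent ℚ (fun ij : Fin k × Fin m => lam ij.1 ij.2))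
    (halg : ∀ i j, IsAlgebraic ℚ (Complex.exp (lam i j))) (w : Fin d → ℂ) (u : ℂ)
    (X : Fin k → Fin m → Finset ℚ) (N : ℕ) (hN : 1 ≤ N) (hX : ∀ i j, N ≤ (X i j).card) :
    ((((Fintype.piFinset fun i => Fintype.piFinset (X i)).filter (fun x : Fin k → Fin m → ℚ =>
      BadK (Submodule.span Qb (Set.range w)) D
        (u + ∑ i, ∑ j, (x i j : ℂ) * lam i j))).card : ℕ) : ℝ) ≤
      2 * ((N : ℝ) ^ m) ^ (-((1 / 2 : ℝ) ^ k)) * ∏ i, ∏ j, ((X i j).card : ℝ) := by
  have h1 := boxT k (fun i => Fintype.piFinset (X i)) (N ^ m) (Nat.one_le_pow _ _ hN)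
    (fun i => by
      rw [Fintype.card_piFinset]
      calc N ^ m = ∏ _j : Fin m, N := by rw [Finset.prod_const, Finset.card_univ, Fintype.card_fin]
        _ ≤ ∏ j, (X i j).card := Finset.prod_le_prod' fun j _ => hX i j)
    {x | BadK (Submodule.span Qb (Set.range w)) D (u + ∑ i, ∑ j, (x i j : ℂ) * lam i j)} ?_
  · simp only [Fintype.card_piFinset, Nat.cast_prod, Nat.cast_pow] at h1
    exact h1
  · intro a b hab
    obtain ⟨S, hS⟩ := hk (fun i => ∑ j, ((b i j - a i j : ℚ) : ℂ) * lam i j) (by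
      rw [Fintype.linearIndependent_iff]
      intro c hc
      rw [Fintype.linearIndependent_iff] at hind
      have h2 := hind (fun ij => c ij.1 * (b ij.1 ij.2 - a ij.1 ij.2)) (by
        rw [← hc, Fintype.sum_prod_type]
        refine Finset.sum_congr rfl fun i _ => ?_
        rw [Finset.smul_sum]
        refine Finset.sum_congr rfl fun j _ => ?_
        simp only [Algebra.smul_def, eq_ratCast]
        push_cast
        ring)
      intro i
      obtain ⟨_, _, hne⟩ := hab i
      obtain ⟨j, hj⟩ : ∃ j, a i j ≠ b i j := by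
        by_contra h3
        push Not at h3
        exact hne (funext h3)
      have h3 := h2 (i, j)
      simp only at h3
      rcases mul_eq_zero.1 h3 with h4 | h4
      · exact h4
      · exact absurd (sub_eq_zero.1 h4).symm hj) (by
      intro i
      rw [Complex.exp_sum]
      refine pb_algprod fun j => pb_algexp (halg i j) _) w
      (u + ∑ i, ∑ j, (a i j : ℂ) * lam i j)
    refine ⟨S, fun h => hS ?_⟩
    change BadK (Submodule.span Qb (Set.range w)) D
      (u + ∑ i, ∑ j, ((if i ∈ S then b i else a i) j : ℂ) * lam i j) at h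
    convert h using 1
    have h3 : ∑ i : Fin k, ∑ j, (((if i ∈ S then b i else a i) j : ℚ) : ℂ) * lam i j =
        ∑ i : Fin k, ((∑ j, (a i j : ℂ) * lam i j) +
          if i ∈ S then ∑ j, ((b i j - a i j : ℚ) : ℂ) * lam i j else 0) := by
      refine Finset.sum_congr rfl fun i _ => ?_
      split_ifs
      · rw [← Finset.sum_add_distrib]
        refine Finset.sum_congr rfl fun j _ => ?_
        push_cast
        ring
      · rw [add_zero]
    rw [h3, Finset.sum_add_distrib, ← Finset.sum_filter]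
    simp only [Finset.filter_mem_eq_inter, Finset.univ_inter]
    ring

open Classical in
private theorem pb_key (d D K m : ℕ) (hK : ∀ lam : Fin K → ℂ, LinearIndependent ℚ lam →
    (∀ i, IsAlgebraic ℚ (Complex.exp (lam i))) → ∀ (w : Fin d → ℂ) (u : ℂ),
      ∃ S : Finset (Fin K), ¬ BadK (Submodule.span Qb (Set.range w)) D (u + ∑ i ∈ S, lam i))
    (n : ℕ) (hn : K * m ≤ n) : ∀ lam : Fin n → ℂ,
    LinearIndependent ℚ lam → (∀ i, IsAlgebraic ℚ (Complex.exp (lam i))) →
    ∀ (w : Fin d → ℂ) (u : ℂ) (X : Fin n → Finset ℚ) (N : ℕ), 1 ≤ N → (∀ i, N ≤ (X i).card) →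
    ((((Fintype.piFinset X).filter (fun x =>
      BadK (Submodule.span Qb (Set.range w)) D (u + ∑ i, (x i : ℂ) * lam i))).card : ℕ) : ℝ) ≤
      2 * ((N : ℝ) ^ m) ^ (-((1 / 2 : ℝ) ^ K)) * ∏ i, ((X i).card : ℝ) := by
  induction n, hn using Nat.le_induction with
  | base =>
    intro lam hind halg w u X N hN hX
    have h1 := grid_block d D K m hK (fun i j => lam (finProdFinEquiv (i, j)))
      (hind.comp _ finProdFinEquiv.injective) (fun i j => halg _) w u
      (fun i j => X (finProdFinEquiv (i, j))) N hN (fun i j => hX _)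
    have hprod : ∏ i : Fin K, ∏ j : Fin m, ((X (finProdFinEquiv (i, j))).card : ℝ) =
        ∏ l, ((X l).card : ℝ) := by
      rw [← Fintype.prod_prod_type' (fun i j => ((X (finProdFinEquiv (i, j))).card : ℝ))]
      exact Equiv.prod_comp finProdFinEquiv (fun l => ((X l).card : ℝ))
    rw [hprod] at h1
    refine le_trans ?_ h1
    rw [Nat.cast_le]
    refine Finset.card_le_card_of_injOn
      (fun x : Fin (K * m) → ℚ => fun i j => x (finProdFinEquiv (i, j))) ?_ ?_
    · intro x hx
      have hx := Finset.mem_filter.1 (Finset.mem_coe.1 hx)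
      have hx1 := Fintype.mem_piFinset.1 hx.1
      refine Finset.mem_coe.2 (Finset.mem_filter.2 ⟨Fintype.mem_piFinset.2 fun i =>
        Fintype.mem_piFinset.2 fun j => hx1 _, ?_⟩)
      have hx2 := hx.2
      convert hx2 using 2
      rw [← Fintype.sum_prod_type' (fun (i : Fin K) (j : Fin m) =>
        (x (finProdFinEquiv (i, j)) : ℂ) * lam (finProdFinEquiv (i, j)))]
      exact Equiv.sum_comp finProdFinEquiv (fun l => (x l : ℂ) * lam l)
    · intro x _ y _ h
      funext l
      obtain ⟨ij, rfl⟩ := finProdFinEquiv.surjective l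
      exact congrFun (congrFun h ij.1) ij.2
  | succ n hn ih =>
    intro lam hind halg w u X N hN hX
    rw [pb_count, Fin.prod_univ_succ]
    push_cast
    have h1 : ∀ a ∈ X 0, ((((Fintype.piFinset (Fin.tail X)).filter (fun p =>
        BadK (Submodule.span Qb (Set.range w)) D (u + ∑ i,
          (((Fin.cons a p : Fin (n + 1) → ℚ) i : ℚ) : ℂ) * lam i))).card : ℕ) : ℝ) ≤
        2 * ((N : ℝ) ^ m) ^ (-((1 / 2 : ℝ) ^ K)) * ∏ i : Fin n, ((X i.succ).card : ℝ) := by
      intro a _
      have h2 := ih (fun i => lam i.succ) (hind.comp _ (Fin.succ_injective n))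
        (fun i => halg i.succ) w (u + (a : ℂ) * lam 0) (Fin.tail X) N hN (fun i => hX i.succ)
      refine le_trans (le_of_eq ?_) h2
      congr 2
      refine Finset.filter_congr fun p _ => ?_
      rw [Fin.sum_univ_succ]
      simp only [Fin.cons_zero, Fin.cons_succ]
      rw [add_assoc]
    refine le_trans (Finset.sum_le_sum h1) (le_of_eq ?_)
    rw [Finset.sum_const, nsmul_eq_mul]
    ring

open Classical in
/-- Proof. k from `nocubeL`, may assume k ≥ 1 (no cube for k implies no cube for k + 1). n₀ = k,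
δ = (1/2)^k / (2 k). n = k m + s, m = n / k, s = n % k: `grid_block` for the first k m coordinates
(reindex with finProdFinEquiv), then add s coordinates one by one (fix the new coordinate and put its
contribution into u, as in `grid_one`); m ≥ n / (2 k). -/
theorem grid_pow (d D : ℕ) : ∃ n₀ : ℕ, ∃ δ : ℝ, 0 < δ ∧ ∀ n : ℕ, n₀ ≤ n → ∀ lam : Fin n → ℂ,
    LinearIndependent ℚ lam → (∀ i, IsAlgebraic ℚ (Complex.exp (lam i))) →
    ∀ (w : Fin d → ℂ) (u : ℂ) (X : Fin n → Finset ℚ) (N : ℕ), 1 ≤ N → (∀ i, N ≤ (X i).card) →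
    ((((Fintype.piFinset X).filter (fun x =>
      BadK (Submodule.span Qb (Set.range w)) D (u + ∑ i, (x i : ℂ) * lam i))).card : ℕ) : ℝ) ≤
      2 * (N : ℝ) ^ (-(δ * n)) * ∏ i, ((X i).card : ℝ) := by
  obtain ⟨k₀, hk₀⟩ := nocubeL d D
  have hK : ∀ lam : Fin (k₀ + 1) → ℂ, LinearIndependent ℚ lam →
      (∀ i, IsAlgebraic ℚ (Complex.exp (lam i))) → ∀ (w : Fin d → ℂ) (u : ℂ),
      ∃ S : Finset (Fin (k₀ + 1)),
        ¬ BadK (Submodule.span Qb (Set.range w)) D (u + ∑ i ∈ S, lam i) := by
    intro lam hind halg w u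
    obtain ⟨S, hS⟩ := hk₀ (fun i => lam i.castSucc)
      (hind.comp _ (Fin.castSucc_injective k₀)) (fun i => halg i.castSucc) w u
    refine ⟨S.map Fin.castSuccEmb, ?_⟩
    rw [Finset.sum_map]
    exact hS
  have hK1 : 1 ≤ k₀ + 1 := by omega
  generalize k₀ + 1 = K at hK hK1
  refine ⟨K, (1 / 2 : ℝ) ^ K / (2 * K), by positivity, fun n hn lam hind halg w u X N hN hX => ?_⟩
  have hdiv : K * (n / K) ≤ n := Nat.mul_div_le n K
  have hm : n < K * (n / K) + K := by
    have h1 := Nat.div_add_mod n K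
    have h2 := Nat.mod_lt n (by omega : 0 < K)
    omega
  have hm1 : 1 ≤ n / K := (Nat.one_le_div_iff (by omega)).2 hn
  generalize n / K = m at hdiv hm hm1
  have key := pb_key d D K m hK n hdiv lam hind halg w u X N hN hX
  refine key.trans ?_
  have hN' : (1 : ℝ) ≤ N := by exact_mod_cast hN
  have h2 : ((N : ℝ) ^ m) ^ (-((1 / 2 : ℝ) ^ K)) ≤
      (N : ℝ) ^ (-((1 / 2 : ℝ) ^ K / (2 * K) * n)) := by
    rw [← Real.rpow_natCast, ← Real.rpow_mul (by positivity)]
    refine Real.rpow_le_rpow_of_exponent_le hN' ?_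
    have h3 : (n : ℝ) ≤ 2 * K * m := by
      have h4 : n ≤ 2 * K * m := by nlinarith
      exact_mod_cast h4
    have hK0 : (0 : ℝ) < K := by exact_mod_cast hK1
    have h5 : (1 / 2 : ℝ) ^ K / (2 * K) * n ≤ (1 / 2 : ℝ) ^ K * m := by
      rw [div_mul_eq_mul_div, div_le_iff₀ (by positivity)]
      have h6 : (0 : ℝ) ≤ (1 / 2 : ℝ) ^ K := by positivity
      nlinarith [mul_le_mul_of_nonneg_left h3 h6]
    linarith
  gcongr

end Pool.Agent.LogAll
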